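import Mathlib

set_option autoImplicit false

/-!
# Lower bounds for Hausdorff dimension from codings

Digits are chosen one after the other; the number `K h` of possible digits and their weights
`w h i`, `i < K h`, may depend on the history `h` (the list of the digits chosen before, latest
first). If the points coded by two digit sequences which differ for the first time at place `n`
have distance `D` with `weight of the common digits ≤ C * D ^ σ`, then the set of the coded
points has Hausdorff dimension at least `σ`.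
-/

open Filter Topology Set

namespace Pool.Agent.Q187.Code

/-- the first `n` digits, latest first -/
def hist (a : ℕ → ℕ) : ℕ → List ℕ
  | 0 => []
  | n + 1 => a n :: hist a n

lemma hist_congr {a b : ℕ → ℕ} {n : ℕ} (h : ∀ j < n, a j = b j) : hist a n = hist b n := by
  induction n with
  | zero => rfl
  | succ n ih =>
    simp only [hist]
    rw [h n (Nat.lt_succ_self n), ih fun j hj => h j (by omega)]

section code

variable (w : List ℕ → ℕ → ℝ) (K : List ℕ → ℕ)

/-- admissible sequences -/
def Adm (a : ℕ → ℕ) : Prop := ∀ n, a n < K (hist a n)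

/-- weight of the first `n` digits -/
noncomputable def wt (a : ℕ → ℕ) (n : ℕ) : ℝ := ∏ j ∈ Finset.range n, w (hist a j) (a j)

lemma wt_succ (a : ℕ → ℕ) (n : ℕ) : wt w a (n + 1) = wt w a n * w (hist a n) (a n) := by
  unfold wt
  rw [Finset.prod_range_succ]

lemma wt_congr {a b : ℕ → ℕ} {n : ℕ} (h : ∀ j < n, a j = b j) : wt w a n = wt w b n := by
  unfold wt
  apply Finset.prod_congr rfl
  intro j hj
  have hj' := Finset.mem_range.1 hj
  rw [h j hj', hist_congr fun i hi => h i (by omega)]

/-- partial sums of weights -/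
noncomputable def PS (h : List ℕ) (i : ℕ) : ℝ := ∑ j ∈ Finset.range i, w h j

lemma exists_dig (h : List ℕ) (h1 : PS w h (K h) = 1) (t : ℝ) (ht : t ∈ Ico (0 : ℝ) 1) :
    ∃ i, i < K h ∧ PS w h i ≤ t ∧ t < PS w h (i + 1) := by
  classical
  have hex : ∃ i, t < PS w h i := ⟨K h, by rw [h1]; exact ht.2⟩
  have hs := Nat.find_spec hex
  have h2 : Nat.find hex ≠ 0 := by
    intro h0
    rw [h0] at hs
    simp [PS] at hs
    linarith [ht.1]
  obtain ⟨m, hm⟩ := Nat.exists_eq_succ_of_ne_zero h2
  refine ⟨m, ?_, ?_, ?_⟩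
  · have : Nat.find hex ≤ K h := Nat.find_min' hex (by rw [h1]; exact ht.2)
    omega
  · have := Nat.find_min hex (m := m) (by omega)
    exact not_lt.mp this
  · have : m + 1 = Nat.find hex := by omega
    rw [this]; exact hs

open Classical in
/-- the digit of `t` after the history `h` -/
noncomputable def dg (h : List ℕ) (t : ℝ) : ℕ :=
  if hh : ∃ i, i < K h ∧ PS w h i ≤ t ∧ t < PS w h (i + 1) then Classical.choose hh else 0

/-- the expanding map -/
noncomputable def stp (p : List ℕ × ℝ) : List ℕ × ℝ :=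
  (dg w K p.1 p.2 :: p.1, (p.2 - PS w p.1 (dg w K p.1 p.2)) / w p.1 (dg w K p.1 p.2))

/-- state after `n` steps -/
noncomputable def st (t : ℝ) (n : ℕ) : List ℕ × ℝ := (stp w K)^[n] ([], t)

/-- digits of `t` -/
noncomputable def ds (t : ℝ) (n : ℕ) : ℕ := dg w K (st w K t n).1 (st w K t n).2

lemma st_succ (t : ℝ) (n : ℕ) : st w K t (n + 1) = stp w K (st w K t n) := by
  unfold st
  rw [Function.iterate_succ', Function.comp_apply]

lemma st_hist (t : ℝ) (n : ℕ) : (st w K t n).1 = hist (ds w K t) n := by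
  induction n with
  | zero => rfl
  | succ n ih =>
    rw [st_succ]
    show ds w K t n :: (st w K t n).1 = _
    rw [ih]
    rfl

variable {w K}
variable (hpos : ∀ h i, i < K h → 0 < w h i) (hsum : ∀ h, PS w h (K h) = 1)

include hsum in
lemma dg_spec (h : List ℕ) (t : ℝ) (ht : t ∈ Ico (0 : ℝ) 1) :
    dg w K h t < K h ∧ PS w h (dg w K h t) ≤ t ∧ t < PS w h (dg w K h t + 1) := by
  have hh := exists_dig w K h (hsum h) t ht
  unfold dg
  rw [dif_pos hh]
  exact Classical.choose_spec hh

include hpos hsum in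
lemma st_mem (t : ℝ) (ht : t ∈ Ico (0 : ℝ) 1) (n : ℕ) : (st w K t n).2 ∈ Ico (0 : ℝ) 1 := by
  induction n with
  | zero => exact ht
  | succ n ih =>
    rw [st_succ]
    obtain ⟨h1, h2, h3⟩ := dg_spec hsum (st w K t n).1 _ ih
    have hp := hpos _ _ h1
    have h4 : PS w (st w K t n).1 (dg w K (st w K t n).1 (st w K t n).2 + 1)
        = PS w (st w K t n).1 (dg w K (st w K t n).1 (st w K t n).2)
          + w (st w K t n).1 (dg w K (st w K t n).1 (st w K t n).2) := by
      unfold PS; rw [Finset.sum_range_succ]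
    constructor
    · exact div_nonneg (by linarith) hp.le
    · show (_ - _) / _ < (1 : ℝ)
      rw [div_lt_one hp]
      linarith

include hpos hsum in
lemma ds_adm (t : ℝ) (ht : t ∈ Ico (0 : ℝ) 1) : Adm K (ds w K t) := by
  intro n
  rw [← st_hist]
  exact (dg_spec hsum _ _ (st_mem hpos hsum t ht n)).1

include hpos in
lemma wt_pos {a : ℕ → ℕ} (ha : Adm K a) (n : ℕ) : 0 < wt w a n :=
  Finset.prod_pos fun j _ => hpos _ _ (ha j)

include hpos hsum in
lemma diff_eq (t s : ℝ) (ht : t ∈ Ico (0 : ℝ) 1) (hs : s ∈ Ico (0 : ℝ) 1) (n : ℕ)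
    (heq : ∀ j < n, ds w K t j = ds w K s j) :
    |t - s| = wt w (ds w K t) n * |(st w K t n).2 - (st w K s n).2| := by
  induction n with
  | zero => simp [wt, st]
  | succ n ih =>
    rw [ih fun j hj => heq j (by omega), wt_succ]
    have h1 := heq n (by omega)
    have hh : (st w K t n).1 = (st w K s n).1 := by
      rw [st_hist, st_hist, hist_congr fun j hj => heq j (by omega)]
    have hp := hpos _ _ (ds_adm hpos hsum t ht n)
    have e : (st w K t n).2 - (st w K s n).2 = w (hist (ds w K t) n) (ds w K t n)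
        * ((st w K t (n + 1)).2 - (st w K s (n + 1)).2) := by
      rw [st_succ, st_succ]
      show _ = w (hist (ds w K t) n) (ds w K t n) *
        (((st w K t n).2 - PS w (st w K t n).1 (ds w K t n)) / w (st w K t n).1 (ds w K t n)
          - ((st w K s n).2 - PS w (st w K s n).1 (ds w K s n)) / w (st w K s n).1 (ds w K s n))
      rw [← h1, ← hh, st_hist]
      have := hp.ne'
      field_simp
      ring
    rw [e, abs_mul, abs_of_pos hp]
    ring

include hpos hsum in
lemma diff_le (t s : ℝ) (ht : t ∈ Ico (0 : ℝ) 1) (hs : s ∈ Ico (0 : ℝ) 1) (n : ℕ)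
    (heq : ∀ j < n, ds w K t j = ds w K s j) : |t - s| ≤ wt w (ds w K t) n := by
  rw [diff_eq hpos hsum t s ht hs n heq]
  have h1 := st_mem hpos hsum t ht n
  have h2 := st_mem hpos hsum s hs n
  have h3 : |(st w K t n).2 - (st w K s n).2| ≤ 1 := by
    rw [abs_le]
    constructor <;> linarith [h1.1, h1.2, h2.1, h2.2]
  calc _ ≤ wt w (ds w K t) n * 1 :=
        mul_le_mul_of_nonneg_left h3 (wt_pos hpos (ds_adm hpos hsum t ht) n).le
    _ = _ := mul_one _

include hpos hsum in
/-- **Lower bound for the dimension of a coded set.** -/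
theorem dim_ge {X : Type*} [MetricSpace X] (pi : (ℕ → ℕ) → X) (σ : NNReal) (hσ : 0 < σ)
    (C : NNReal)
    (hlim : ∀ a, Adm K a → Tendsto (fun n => wt w a n) atTop (𝓝 0))
    (H : ∀ a b, Adm K a → Adm K b → ∀ n, (∀ j < n, a j = b j) → a n ≠ b n →
      wt w a n ≤ C * dist (pi a) (pi b) ^ (σ : ℝ)) :
    (σ : ENNReal) ≤ dimH (pi '' {a | Adm K a}) := by
  classical
  set G : ℝ → X := fun t => pi (ds w K t) with hG
  set F : X → ℝ := Function.invFunOn G (Ico (0 : ℝ) 1) with hF
  have hσ' : (0 : ℝ) < σ := hσ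
  have hb : ∀ t ∈ Ico (0 : ℝ) 1, ∀ s ∈ Ico (0 : ℝ) 1, |t - s| ≤ C * dist (G t) (G s) ^ (σ : ℝ) := by
    intro t ht s hs
    by_cases hex : ∃ n, ds w K t n ≠ ds w K s n
    · have hne := Nat.find_spec hex
      have heq : ∀ j < Nat.find hex, ds w K t j = ds w K s j := by
        intro j hj
        have := Nat.find_min hex hj
        push Not at this
        exact this
      exact (diff_le hpos hsum t s ht hs _ heq).trans
        (H _ _ (ds_adm hpos hsum t ht) (ds_adm hpos hsum s hs) _ heq hne)
    · push Not at hex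
      have h1 : ∀ n, |t - s| ≤ wt w (ds w K t) n := fun n =>
        diff_le hpos hsum t s ht hs n fun j _ => hex j
      have h2 : |t - s| ≤ 0 := ge_of_tendsto' (hlim _ (ds_adm hpos hsum t ht)) h1
      exact h2.trans (by positivity)
  have hinj : InjOn G (Ico (0 : ℝ) 1) := by
    intro t ht s hs h
    have h1 := hb t ht s hs
    rw [h, dist_self, Real.zero_rpow hσ'.ne', mul_zero] at h1
    have h7 : t - s = 0 := abs_eq_zero.mp (le_antisymm h1 (abs_nonneg _))
    linarith
  have hFG : ∀ t ∈ Ico (0 : ℝ) 1, F (G t) = t := fun t ht => hinj.leftInvOn_invFunOn ht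
  have hhol : HolderOnWith C σ F (G '' Ico (0 : ℝ) 1) := by
    rintro _ ⟨t, ht, rfl⟩ _ ⟨s, hs, rfl⟩
    rw [hFG t ht, hFG s hs]
    have h1 := hb t ht s hs
    rw [edist_dist, edist_dist, Real.dist_eq]
    refine (ENNReal.ofReal_le_ofReal h1).trans (le_of_eq ?_)
    rw [ENNReal.ofReal_mul (by positivity), ENNReal.ofReal_rpow_of_nonneg dist_nonneg hσ'.le]
    congr 1
    exact ENNReal.ofReal_coe_nnreal
  have himg : F '' (G '' Ico (0 : ℝ) 1) = Ico (0 : ℝ) 1 := by
    rw [image_image]
    ext t
    constructor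
    · rintro ⟨s, hs, rfl⟩
      change F (G s) ∈ Ico (0 : ℝ) 1
      rw [hFG s hs]; exact hs
    · intro ht
      exact ⟨t, ht, hFG t ht⟩
  have h1 := hhol.dimH_image_le hσ
  rw [himg] at h1
  have h2 : dimH (Ico (0 : ℝ) 1) = 1 := by
    have := Real.dimH_of_nonempty_interior (s := Ico (0 : ℝ) 1) (by
      rw [interior_Ico]
      exact ⟨1 / 2, by norm_num, by norm_num⟩)
    simpa using this
  rw [h2] at h1
  rw [ENNReal.le_div_iff_mul_le (Or.inl (by exact_mod_cast hσ.ne')) (Or.inl ENNReal.coe_ne_top),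
    one_mul] at h1
  refine h1.trans (dimH_mono ?_)
  rintro _ ⟨t, ht, rfl⟩
  exact ⟨ds w K t, ds_adm hpos hsum t ht, rfl⟩

end code

end Pool.Agent.Q187.Code
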