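import Mathlib
import Pool.Agent.Q187.Code

set_option autoImplicit false

/-!
# A sharper lower bound for the Hausdorff dimension of coded sets

As `Pool.Agent.Q187.Code.dim_ge`, but the weights of the symbols between two different symbols at
the first place of difference are used.
-/

open Filter Topology Set

namespace Pool.Agent.Q187.Code

variable {w : List ℕ → ℕ → ℝ} {K : List ℕ → ℕ}
variable (hpos : ∀ h i, i < K h → 0 < w h i) (hsum : ∀ h, PS w h (K h) = 1)

include hpos in
lemma PS_mono {h : List ℕ} {i j : ℕ} (hij : i ≤ j) (hj : j ≤ K h) : PS w h i ≤ PS w h j := by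
  unfold PS
  apply Finset.sum_le_sum_of_subset_of_nonneg
  · intro x hx
    rw [Finset.mem_range] at hx ⊢
    omega
  · intro x hx _
    rw [Finset.mem_range] at hx
    exact (hpos h x (by omega)).le

include hpos hsum in
/-- **Lower bound for the dimension of a coded set.** -/
theorem dim_ge' {X : Type*} [MetricSpace X] (pi : (ℕ → ℕ) → X) (σ : NNReal) (hσ : 0 < σ)
    (C : NNReal)
    (hlim : ∀ a, Adm K a → Tendsto (fun n => wt w a n) atTop (𝓝 0))
    (H : ∀ a b, Adm K a → Adm K b → ∀ n, (∀ j < n, a j = b j) → a n < b n →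
      wt w a n * (PS w (hist a n) (b n + 1) - PS w (hist a n) (a n)) ≤
        C * dist (pi a) (pi b) ^ (σ : ℝ)) :
    (σ : ENNReal) ≤ dimH (pi '' {a | Adm K a}) := by
  classical
  set G : ℝ → X := fun t => pi (ds w K t) with hG
  set F : X → ℝ := Function.invFunOn G (Ico (0 : ℝ) 1) with hF
  have hσ' : (0 : ℝ) < σ := hσ
  have hlt : ∀ t ∈ Ico (0 : ℝ) 1, ∀ s ∈ Ico (0 : ℝ) 1, ∀ n, (∀ j < n, ds w K t j = ds w K s j) →
      ds w K t n < ds w K s n → |t - s| ≤ C * dist (G t) (G s) ^ (σ : ℝ) := by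
    intro t ht s hs n heq hlt
    have ha := ds_adm hpos hsum t ht
    have hb := ds_adm hpos hsum s hs
    refine le_trans ?_ (H _ _ ha hb n heq hlt)
    rw [diff_eq hpos hsum t s ht hs n heq]
    apply mul_le_mul_of_nonneg_left _ (wt_pos hpos ha n).le
    obtain ⟨h1, h2, h3⟩ := dg_spec hsum (st w K t n).1 _ (st_mem hpos hsum t ht n)
    obtain ⟨h4, h5, h6⟩ := dg_spec hsum (st w K s n).1 _ (st_mem hpos hsum s hs n)
    change ds w K t n < _ at h1
    change PS w _ (ds w K t n) ≤ _ at h2
    change _ < PS w _ (ds w K t n + 1) at h3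
    change ds w K s n < _ at h4
    change PS w _ (ds w K s n) ≤ _ at h5
    change _ < PS w _ (ds w K s n + 1) at h6
    have hh : hist (ds w K s) n = hist (ds w K t) n := hist_congr fun j hj => (heq j hj).symm
    rw [st_hist] at h1 h2 h3 h4 h5 h6
    rw [hh] at h4 h5 h6
    have h7 := PS_mono (w := w) hpos (i := ds w K t n) (j := ds w K s n) hlt.le h4.le
    have h8 := PS_mono (w := w) hpos (i := ds w K t n + 1) (j := ds w K s n) hlt h4.le
    rw [abs_le]
    constructor <;> linarith
  have hb : ∀ t ∈ Ico (0 : ℝ) 1, ∀ s ∈ Ico (0 : ℝ) 1, |t - s| ≤ C * dist (G t) (G s) ^ (σ : ℝ) := by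
    intro t ht s hs
    by_cases hex : ∃ n, ds w K t n ≠ ds w K s n
    · have hne := Nat.find_spec hex
      have heq : ∀ j < Nat.find hex, ds w K t j = ds w K s j := by
        intro j hj
        have := Nat.find_min hex hj
        push Not at this
        exact this
      rcases lt_or_gt_of_ne hne with h | h
      · exact hlt t ht s hs _ heq h
      · rw [abs_sub_comm, dist_comm]
        exact hlt s hs t ht _ (fun j hj => (heq j hj).symm) h
    · push Not at hex
      have h1 : ∀ n, |t - s| ≤ wt w (ds w K t) n := fun n =>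
        diff_le hpos hsum t s ht hs n fun j _ => hex j
      have h2 : |t - s| ≤ 0 := ge_of_tendsto' (hlim _ (ds_adm hpos hsum t ht)) h1
      exact h2.trans (by positivity)
  have hinj : InjOn G (Ico (0 : ℝ) 1) := by
    intro t ht s hs h
    have h1 := hb t ht s hs
    rw [h, dist_self, Real.zero_rpow hσ'.ne', mul_zero] at h1
    have h7 : t - s = 0 := abs_eq_zero.mp (le_antisymm h1 (abs_nonneg _))
    linarith
  have hFG : ∀ t ∈ Ico (0 : ℝ) 1, F (G t) = t := fun t ht => hinj.leftInvOn_invFunOn ht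
  have hhol : HolderOnWith C σ F (G '' Ico (0 : ℝ) 1) := by
    rintro _ ⟨t, ht, rfl⟩ _ ⟨s, hs, rfl⟩
    rw [hFG t ht, hFG s hs]
    have h1 := hb t ht s hs
    rw [edist_dist, edist_dist, Real.dist_eq]
    refine (ENNReal.ofReal_le_ofReal h1).trans (le_of_eq ?_)
    rw [ENNReal.ofReal_mul (by positivity), ENNReal.ofReal_rpow_of_nonneg dist_nonneg hσ'.le]
    congr 1
    exact ENNReal.ofReal_coe_nnreal
  have himg : F '' (G '' Ico (0 : ℝ) 1) = Ico (0 : ℝ) 1 := by
    rw [image_image]
    ext t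
    constructor
    · rintro ⟨s, hs, rfl⟩
      change F (G s) ∈ Ico (0 : ℝ) 1
      rw [hFG s hs]; exact hs
    · intro ht
      exact ⟨t, ht, hFG t ht⟩
  have h1 := hhol.dimH_image_le hσ
  rw [himg] at h1
  have h2 : dimH (Ico (0 : ℝ) 1) = 1 := by
    have := Real.dimH_of_nonempty_interior (s := Ico (0 : ℝ) 1) (by
      rw [interior_Ico]
      exact ⟨1 / 2, by norm_num, by norm_num⟩)
    simpa using this
  rw [h2] at h1
  rw [ENNReal.le_div_iff_mul_le (Or.inl (by exact_mod_cast hσ.ne')) (Or.inl ENNReal.coe_ne_top),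
    one_mul] at h1
  refine h1.trans (dimH_mono ?_)
  rintro _ ⟨t, ht, rfl⟩
  exact ⟨ds w K t, ds_adm hpos hsum t ht, rfl⟩

end Pool.Agent.Q187.Code
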